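import Pool.Agent.K1H72.OP.Stm

/-! OP-4: the coefficient formula. -/

set_option autoImplicit false

open MeasureTheory

namespace Pool.Agent.K1H97.OP

open K1H72.OP

theorem norm_qq (t θ : ℝ) : ‖qq t θ‖ = Real.exp (-t) := by
  unfold qq tau
  rw [Complex.norm_exp]
  congr 1
  simp

theorem int_exp (k : ℤ) : ∫ θ in (-Real.pi)..Real.pi, Complex.exp ((k : ℂ) * Complex.I * (θ : ℂ)) =
    if k = 0 then 2 * (Real.pi : ℂ) else 0 := by
  by_cases hk : k = 0
  · rw [if_pos hk, hk]
    simp
    ring
  · rw [if_neg hk]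
    have hc : (k : ℂ) * Complex.I ≠ 0 :=
      mul_ne_zero (by exact_mod_cast hk) Complex.I_ne_zero
    rw [integral_exp_mul_complex hc]
    have h1 : (k : ℂ) * Complex.I * ((Real.pi : ℝ) : ℂ) =
        (k : ℂ) * Complex.I * ((-Real.pi : ℝ) : ℂ) + k * (2 * (Real.pi : ℂ) * Complex.I) := by
      push_cast
      ring
    rw [h1, Complex.exp_add, Complex.exp_int_mul_two_pi_mul_I]
    simp

theorem t_CO (h : S_AN) : S_CO := by
  intro t ht n
  have het : Real.exp (-t) < 1 := Real.exp_lt_one_iff.2 (by linarith)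
  have hq1 : ‖((Real.exp (-t) : ℝ) : ℂ)‖ < 1 := by
    rw [Complex.norm_real, Real.norm_eq_abs, abs_of_pos (Real.exp_pos _)]
    exact het
  have hsum := (h _ hq1).1
  set f : ℕ → ℝ → ℂ := fun m θ => (a m : ℂ) * qq t θ ^ m * Complex.exp ((n : ℂ) * tau t θ) with hf
  have hcont : ∀ m, Continuous (f m) := by
    intro m
    rw [hf]
    unfold qq tau
    fun_prop
  have hnorm : ∀ m θ, ‖f m θ‖ =
      ‖(a m : ℂ) * ((Real.exp (-t) : ℝ) : ℂ) ^ m‖ * Real.exp (n * t) := by
    intro m θ
    simp only [hf]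
    rw [norm_mul, norm_mul, norm_pow, norm_qq, norm_mul, norm_pow, Complex.norm_real,
      Real.norm_eq_abs, abs_of_pos (Real.exp_pos _), Complex.norm_exp]
    congr 2
    unfold tau
    simp
  have hHS : ∀ θ : ℝ, HasSum (fun m => f m θ) (F (qq t θ) * Complex.exp ((n : ℂ) * tau t θ)) := by
    intro θ
    have h1 := (h (qq t θ) (by rw [norm_qq]; exact het)).2
    exact h1.mul_right _
  have hmain := intervalIntegral.hasSum_integral_of_dominated_convergence
    (a := -Real.pi) (b := Real.pi) (μ := volume) (F := f)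
    (f := fun θ => F (qq t θ) * Complex.exp ((n : ℂ) * tau t θ))
    (fun m _ => ‖(a m : ℂ) * ((Real.exp (-t) : ℝ) : ℂ) ^ m‖ * Real.exp (n * t))
    (fun m => (hcont m).aestronglyMeasurable)
    (fun m => Filter.Eventually.of_forall fun θ _ => (hnorm m θ).le)
    (Filter.Eventually.of_forall fun θ _ => hsum.mul_right _)
    (by simp)
    (Filter.Eventually.of_forall fun θ _ => hHS θ)
  have hint : ∀ m, ∫ θ in (-Real.pi)..Real.pi, f m θ =
      if m = n then 2 * (Real.pi : ℂ) * (a n : ℂ) else 0 := by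
    intro m
    have h1 : ∀ θ : ℝ, f m θ = ((a m : ℂ) * Complex.exp (((n : ℂ) - (m : ℂ)) * (t : ℂ))) *
        Complex.exp ((((m : ℤ) - (n : ℤ) : ℤ) : ℂ) * Complex.I * (θ : ℂ)) := by
      intro θ
      simp only [hf]
      unfold qq
      rw [← Complex.exp_nat_mul, mul_assoc, mul_assoc, ← Complex.exp_add, ← Complex.exp_add]
      congr 2
      unfold tau
      push_cast
      ring
    simp only [h1]
    rw [intervalIntegral.integral_const_mul, int_exp]
    by_cases hmn : m = n
    · rw [if_pos hmn, if_pos (by rw [hmn, sub_self]), hmn]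
      simp
      ring
    · rw [if_neg hmn, if_neg (by
        intro h2
        apply hmn
        have : (m : ℤ) = n := by linarith
        exact_mod_cast this), mul_zero]
  have h2 := hmain.unique (by
    have h3 : (fun m => ∫ θ in (-Real.pi)..Real.pi, f m θ) =
        fun m => if m = n then 2 * (Real.pi : ℂ) * (a n : ℂ) else 0 := funext hint
    rw [h3]
    exact hasSum_ite_eq n _)
  exact h2

end Pool.Agent.K1H97.OP
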