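import Pool.Agent.K1H72.OP.Stm

/-! OP-7: the factorisation. -/

set_option autoImplicit false

namespace Pool.Agent.K1H97.OP

open K1H72.OP

theorem mult_one_sub {q : ℂ} (hq : ‖q‖ < 1) (e : ℕ → ℕ) (he : ∀ j, j ≤ e j) :
    Multipliable fun j : ℕ => 1 - q ^ e j := by
  have h1 : Summable fun j : ℕ => ‖-q ^ e j‖ := by
    refine Summable.of_nonneg_of_le (fun j => norm_nonneg _) (fun j => ?_)
      (summable_geometric_of_lt_one (norm_nonneg q) hq)
    rw [norm_neg, norm_pow]
    exact pow_le_pow_of_le_one (norm_nonneg q) hq.le (he j)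
  have h2 := multipliable_one_add_of_summable h1
  simpa [sub_eq_add_neg] using h2

theorem t_FAC (h : S_JTP) : S_FAC := by
  intro q hq0 hq
  rw [h q hq0 hq]
  unfold F D
  have h1 := tprod_even_mul_odd (f := fun j : ℕ => 1 - q ^ (j + 1))
    (mult_one_sub hq (fun k => 2 * k + 1) fun k => by omega)
    (mult_one_sub hq (fun k => 2 * k + 1 + 1) fun k => by omega)
  rw [← h1]
  have h2 : ∀ k : ℕ, 2 * (k + 1) = 2 * k + 1 + 1 := fun k => by ring
  simp only [h2]
  ring

end Pool.Agent.K1H97.OP
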